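import Pool.Agent.Lib.MP_65ccf5_lc.BMem

set_option autoImplicit false

open Pool.Agent.Lib.MP_65ccf5_lc in
/-- For every fixed `k ≥ 5`, recognising strongly `2`-divisible graphs among the graphs without a
clique on `k` vertices is `Π₂ᵖ`-complete under polynomial-time many-one reductions. -/
theorem Pool.Agent.Results.MP_65ccf5_lc.BoundedClique.result :
    ∀ k : ℕ, 5 ≤ k → N793a5b8e.IsCompleteFor Pi2 (SDfree k) :=
  fun k hk => ⟨Bd.mem_pi2 k, Bd.pi2_hard hk⟩
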