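import Pool.Agent.Lib.MP_65ccf5_lc.WC

set_option autoImplicit false

open Classical Pool.Agent.Lib.MP_65ccf5_lc SimpleGraph in
/-- Recognising strongly `2`-divisible graphs is `Π₃ᵖ`-complete under polynomial-time many-one
reductions, and the reductions produce only weakly chordal graphs: graphs with no induced cycle
of length at least five and no induced complement of such a cycle. -/
theorem Pool.Agent.Results.MP_65ccf5_lc.Complete.result :
    SD2 ∈ Pi3 ∧ ∀ L ∈ Pi3, ∃ f : List Bool → List Bool, N68a2faeb.IsPolyTime f ∧ ∀ x,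
      L x = SD2 (f x) ∧ ∃ (n : ℕ) (G : SimpleGraph (Fin n)),
        f x = N487b59b3.bitEncode (List.ofFn fun i => List.ofFn fun j => decide (G.Adj i j)) ∧
        ∀ k : ℕ, 5 ≤ k → IsEmpty (cycleGraph k ↪g G) ∧ IsEmpty ((cycleGraph k)ᶜ ↪g G) :=
  ⟨mem_pi3, pi3_hard_wc⟩

open Pool.Agent.Lib.MP_65ccf5_lc in
/-- The plain completeness statement. -/
theorem Pool.Agent.Results.MP_65ccf5_lc.Complete.complete : N793a5b8e.IsCompleteFor Pi3 SD2 :=
  ⟨Pool.Agent.Results.MP_65ccf5_lc.Complete.result.1, fun L hL =>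
    (Pool.Agent.Results.MP_65ccf5_lc.Complete.result.2 L hL).imp fun _ h =>
      ⟨h.1, fun x => (h.2 x).1⟩⟩
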